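import Pool.Agent.Y114.RM.Stm
import Pool.Agent.TH113.J1773

/-!
# Project RM: subalgebras which contain a regular nilpotent element (FIN)
-/

set_option autoImplicit false

universe u v

namespace Pool.Agent.Y761.RM

open Module Polynomial Pool.Agent.Y114.RM

section

variable {K : Type u} [Field K] {V : Type v} [AddCommGroup V] [Module K V]

lemma adE_comm (X Y : End K V) : adE X * adE Y - adE Y * adE X = adE (X * Y - Y * X) := by
  apply LinearMap.ext
  intro Z
  rw [LinearMap.sub_apply, Module.End.mul_apply, Module.End.mul_apply, adE_apply, adE_apply,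
    adE_apply, adE_apply, adE_apply]
  noncomm_ring

lemma adE_nilpotent {N : End K V} (hN : IsNilpotent N) : IsNilpotent (adE N) := by
  unfold adE
  apply Commute.isNilpotent_sub
  · exact LinearMap.commute_mulLeft_right N N
  · exact (LinearMap.isNilpotent_mulLeft_iff K N).2 hN
  · exact (LinearMap.isNilpotent_mulRight_iff K N).2 hN

lemma restrict_nilpotent {M : Type v} [AddCommGroup M] [Module K M] {T : End K M}
    (hT : IsNilpotent T) (W : Submodule K M) (h : ∀ x ∈ W, T x ∈ W) :
    IsNilpotent (T.restrict h) := by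
  obtain ⟨n, hn⟩ := hT
  refine ⟨n, ?_⟩
  apply LinearMap.ext
  intro x
  apply Subtype.ext
  have h1 : ∀ m : ℕ, (((T.restrict h) ^ m) x : M) = (T ^ m) x := by
    intro m
    induction m with
    | zero => rfl
    | succ m ih => rw [pow_succ', pow_succ', Module.End.mul_apply, Module.End.mul_apply, ← ih]; rfl
  rw [h1, hn]
  rfl

end

theorem fin (h1 : S_RANK.{u, v}) (h2 : S_TRIP.{u, v}) (h3 : S_NAT.{u, v}) (h4 : S_GEN.{u, v}) :
    S_FIN.{u, v} := by
  intro K _ _ _ V _ _ _ G L hG hnd hLG hL h' hh' r p t ht hdet N hN hNil hcen d hd hdN hss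
  have hrG := h1 K V G hG h' (hLG hh') r p t (fun j => hLG (ht j)) hdet
  obtain ⟨c, hc, hcc, f, hf, hNf, hHf⟩ := h2 K V G hG hnd r hrG N (hLG hN) hNil hcen d (hLG hd)
    hdN hss
  have hH : 2 • d - c ∈ G := G.sub_mem (by rw [two_smul]; exact G.add_mem (hLG hd) (hLG hd)) hc
  obtain ⟨e0, he0⟩ : ∃ e0 : End K G, ∀ x : G, (e0 x : End K V) = N * x - x * N :=
    ⟨(adE N).restrict (hG.adE_mem (hLG hN)), fun _ => rfl⟩
  obtain ⟨f0, hf0⟩ : ∃ f0 : End K G, ∀ x : G, (f0 x : End K V) = f * x - x * f :=
    ⟨(adE f).restrict (hG.adE_mem hf), fun _ => rfl⟩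
  obtain ⟨k0, hk0⟩ : ∃ k0 : End K G, ∀ x : G, (k0 x : End K V) =
      (2 • d - c) * x - x * (2 • d - c) :=
    ⟨(adE (2 • d - c)).restrict (hG.adE_mem hH), fun _ => rfl⟩
  have hHN : (2 • d - c) * N - N * (2 • d - c) = 2 • N := by
    have h5 := hcc N (hLG hN)
    calc (2 • d - c) * N - N * (2 • d - c) = 2 • (d * N - N * d) - (c * N - N * c) := by
          noncomm_ring
      _ = 2 • N := by rw [hdN, h5, sub_self, sub_zero]
  have r1 : e0 * f0 - f0 * e0 = k0 := by
    apply LinearMap.ext
    intro x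
    apply Subtype.ext
    have h5 := congrArg (fun T => T (x : End K V)) (adE_comm N f)
    rw [hNf] at h5
    rw [hk0, LinearMap.sub_apply, Submodule.coe_sub, Module.End.mul_apply, Module.End.mul_apply,
      he0, hf0, hf0, he0]
    exact h5
  have r2 : k0 * e0 - e0 * k0 = 2 • e0 := by
    apply LinearMap.ext
    intro x
    apply Subtype.ext
    have h5 := congrArg (fun T => T (x : End K V)) (adE_comm (2 • d - c) N)
    rw [hHN] at h5
    rw [LinearMap.sub_apply, Submodule.coe_sub, Module.End.mul_apply, Module.End.mul_apply,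
      he0, hk0, hk0, he0, LinearMap.smul_apply, Submodule.coe_smul_of_tower, he0]
    refine h5.trans ?_
    change (2 • N) * (x : End K V) - (x : End K V) * (2 • N) = _
    noncomm_ring
  have r3 : k0 * f0 - f0 * k0 = -(2 • f0) := by
    apply LinearMap.ext
    intro x
    apply Subtype.ext
    have h5 := congrArg (fun T => T (x : End K V)) (adE_comm (2 • d - c) f)
    rw [hHf] at h5
    rw [LinearMap.sub_apply, Submodule.coe_sub, Module.End.mul_apply, Module.End.mul_apply,
      hf0, hk0, hk0, hf0, LinearMap.neg_apply, LinearMap.smul_apply, Submodule.coe_neg,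
      Submodule.coe_smul_of_tower, hf0]
    refine h5.trans ?_
    change (-(2 • f)) * (x : End K V) - (x : End K V) * (-(2 • f)) = _
    noncomm_ring
  obtain ⟨W, hW⟩ : ∃ W : Submodule K G, W = L.comap G.subtype := ⟨_, rfl⟩
  have hWm : ∀ x : G, x ∈ W ↔ (x : End K V) ∈ L := by
    intro x
    rw [hW]
    rfl
  have hWe : ∀ x ∈ W, e0 x ∈ W := by
    intro x hx
    rw [hWm, he0]
    exact hL N hN x ((hWm x).1 hx)
  have hkd : ∀ x : End K V, x ∈ G → (2 • d - c) * x - x * (2 • d - c) = 2 • (d * x - x * d) := by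
    intro x hx
    have h5 := hcc x hx
    calc (2 • d - c) * x - x * (2 • d - c) = 2 • (d * x - x * d) - (c * x - x * c) := by
          noncomm_ring
      _ = _ := by rw [h5, sub_self, sub_zero]
  have hWk : ∀ x ∈ W, k0 x ∈ W := by
    intro x hx
    rw [hWm, hk0, hkd x x.2, two_smul]
    have h5 := hL d hd x ((hWm x).1 hx)
    exact L.add_mem h5 h5
  obtain ⟨n, hn⟩ := h3 K G e0 f0 k0 r1 r2 r3 W hWe hWk
  have htr : LinearMap.trace K W (k0.restrict hWk) =
      2 * LinearMap.trace K L ((adE d).restrict (hL.adE_mem hd)) := by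
    subst hW
    let eq := Submodule.comapSubtypeEquivOfLe hLG
    have h6 := LinearMap.trace_conj' (R := K) (M := (Submodule.comap G.subtype L : Submodule K G))
      (N := L) (k0.restrict hWk) eq
    refine h6.symm.trans ?_
    have h5 : eq.conj (k0.restrict hWk) = (2 : K) • ((adE d).restrict (hL.adE_mem hd)) := by
      apply LinearMap.ext
      intro x
      apply Subtype.ext
      rw [LinearEquiv.conj_apply_apply]
      change ((k0 (eq.symm x : G) : G) : End K V) = _
      rw [hk0, hkd _ (Submodule.coe_mem _)]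
      change 2 • (d * (x : End K V) - (x : End K V) * d) =
        (2 : K) • (d * (x : End K V) - (x : End K V) * d)
      rw [two_smul, two_smul]
    rw [h5, map_smul, smul_eq_mul]
  refine ⟨n, by rw [← htr, hn], ?_⟩
  rintro rfl
  have hWf := Pool.Agent.TH113.J1773.obs K G k0 e0 f0 r2 r3 r1 W hWe hWk (by rw [hn]; simp)
  have hrL := h1 K V L hL h' hh' r p t ht hdet N hN
  have hle : cen L N ≤ cen G N := fun x hx => ⟨hLG hx.1, hx.2⟩
  have hce : cen L N = cen G N := Submodule.eq_of_le_of_finrank_le hle (hcen.trans hrL)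
  have e0nil : IsNilpotent e0 := by
    have h5 : e0 = (adE N).restrict (hG.adE_mem (hLG hN)) := by
      apply LinearMap.ext
      intro x
      apply Subtype.ext
      rw [he0]
      rfl
    rw [h5]
    exact restrict_nilpotent (adE_nilpotent hNil) G _
  have hWtop := h4 K G e0 f0 k0 r1 r2 r3 e0nil W hWf hWk (by
    intro x hx
    rw [LinearMap.mem_ker] at hx
    have h5 : N * (x : End K V) - x * N = 0 := by
      rw [← he0, hx]
      rfl
    have h6 : (x : End K V) ∈ cen G N := ⟨x.2, sub_eq_zero.1 h5⟩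
    rw [← hce] at h6
    exact (hWm x).2 h6.1)
  apply le_antisymm hLG
  intro x hx
  have h5 : (⟨x, hx⟩ : G) ∈ W := by rw [hWtop]; trivial
  exact (hWm _).1 h5

end Pool.Agent.Y761.RM
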